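import Pool.Agent.Helper64.RN.Goals

/-!
# PROJECT RN (MP_d01c92_ag), packet NS: stability of the locus of rational normal curves
-/

set_option autoImplicit false

open scoped BigOperators

universe u

namespace Pool.Agent.Helper22.RN.NS

open Pool.Agent.Helper64.IG Pool.Agent.Helper64.RN

/-- All equations over `K` of the level hold at the form. -/
def GoodF {K : Type u} [Field K] {m q : ℕ} (η : Form K m q) : Prop :=
  ∀ h : MvPolynomial (Fin q → Ix m q) K,
    (∀ ω : Form K m q, IsRNC ω → MvPolynomial.eval ω h = 0) → MvPolynomial.eval η h = 0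

theorem eval_bind {K : Type u} [Field K] {α β : Type} (ω : β → K)
    (φ : α → MvPolynomial β K) (h : MvPolynomial α K) :
    MvPolynomial.eval ω (MvPolynomial.bind₁ φ h) =
      MvPolynomial.eval (fun a => MvPolynomial.eval ω (φ a)) h := by
  have := MvPolynomial.eval₂Hom_bind₁ (RingHom.id K) ω φ h
  exact this

theorem good_xi {K : Type u} [Field K] (hRS : S_RS.{u}) {m q : ℕ} (η : Form K (m + 1) q)
    (hη : GoodF η) : GoodF (xi η) := by
  intro h hh
  have h1 : ∀ ω : Form K (m + 1) q, MvPolynomial.eval ω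
      (MvPolynomial.rename (fun a : Fin q → Ix m q => inc (Nat.le_succ m) le_rfl ∘ a) h) =
      MvPolynomial.eval (xi ω) h := by
    intro ω
    rw [MvPolynomial.eval_rename]
    rfl
  rw [← h1]
  apply hη
  intro ω hω
  rw [h1]
  exact hh _ (hRS.1 K m q ω hω)

theorem good_theta {K : Type u} [Field K] (hRS : S_RS.{u}) {m q : ℕ} (η : Form K m (q + 1))
    (hη : GoodF η) : GoodF (theta η) := by
  intro h hh
  have h1 : ∀ ω : Form K m (q + 1), MvPolynomial.eval ω
      (MvPolynomial.rename (fun a : Fin q → Ix m q =>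
        (Fin.cons (Sum.inr (Fin.last q)) (inc le_rfl (Nat.le_succ q) ∘ a) :
          Fin (q + 1) → Ix m (q + 1))) h) =
      MvPolynomial.eval (theta ω) h := by
    intro ω
    rw [MvPolynomial.eval_rename]
    rfl
  rw [← h1]
  apply hη
  intro ω hω
  rw [h1]
  exact hh _ (hRS.2.1 K m q ω hω)

theorem good_down_n {K : Type u} [Field K] (hRS : S_RS.{u}) (y : Pt K) (m q : ℕ) :
    ∀ i : ℕ, GoodF (y.x (m + i) q) → GoodF (y.x m q) := by
  intro i
  induction i with
  | zero => exact id
  | succ i ih =>
    intro h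
    apply ih
    rw [← y.xi_eq (m + i) q]
    exact good_xi hRS _ h

theorem good_down_p {K : Type u} [Field K] (hRS : S_RS.{u}) (y : Pt K) (m q : ℕ) :
    ∀ i : ℕ, GoodF (y.x m (q + i)) → GoodF (y.x m q) := by
  intro i
  induction i with
  | zero => exact id
  | succ i ih =>
    intro h
    apply ih
    rw [← y.theta_eq m (q + i)]
    exact good_theta hRS _ h

theorem t (hKK : S_KK.{u}) (hRS : S_RS.{u}) : S_NS.{u} := by
  intro k K _ _ _ _ n p g _ x y hpull hx
  have high : ∀ m q : ℕ, n ≤ m → p ≤ q → GoodF (y.x m q) := by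
    intro m q hm hq h hh
    have e1 : ∀ ω : Form K m q, MvPolynomial.eval ω (MvPolynomial.bind₁
        (fun a : Fin q → Ix m q => MvPolynomial.C (∏ j, g.c hm hq (a j)) *
          MvPolynomial.X (g.s hm hq ∘ a)) h) =
        MvPolynomial.eval (fun a : Fin q → Ix m q =>
          (∏ j, g.c hm hq (a j)) * ω (g.s hm hq ∘ a)) h := by
      intro ω
      rw [eval_bind]
      congr 2
      funext a
      rw [map_mul, MvPolynomial.eval_C, MvPolynomial.eval_X]
    have e2 : y.x m q = fun a : Fin q → Ix m q =>
        (∏ j, g.c hm hq (a j)) * x.x m q (g.s hm hq ∘ a) := by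
      funext a
      exact hpull m q hm hq a
    rw [e2, ← e1]
    apply hKK k K x hx m q
    intro ω hω
    rw [e1]
    exact hh _ (hRS.2.2 K m q ω (g.s hm hq) (g.c hm hq) hω)
  have all : ∀ m q : ℕ, GoodF (y.x m q) := by
    intro m q
    apply good_down_n hRS y m q n
    apply good_down_p hRS y (m + n) q p
    exact high (m + n) (q + p) (Nat.le_add_left n m) (Nat.le_add_left p q)
  intro e he
  have h1 : ∀ ω : Form K e.n e.p,
      MvPolynomial.eval ω (MvPolynomial.map (algebraMap k K) e.f) =
        MvPolynomial.aeval ω e.f := by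
    intro ω
    rw [MvPolynomial.eval_map, MvPolynomial.aeval_def]
  change MvPolynomial.aeval (y.x e.n e.p) e.f = 0
  rw [← h1]
  apply all e.n e.p
  intro ω hω
  rw [h1]
  exact he ω hω

end Pool.Agent.Helper22.RN.NS
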